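import Pool.Agent.KS6_3.ZL.H639R3.Z.Ext

set_option autoImplicit false

/-!
The layers of a `ℤ_p`-tower.
-/

namespace Pool.Agent.H639R3

namespace ZpTower

variable {p : ℕ} [Fact p.Prime] {k K L : Type} [Field k] [Field K] [Field L]
    [Algebra k K] [Algebra K L] [Algebra k L] [IsScalarTower k K L] (T : ZpTower p k K L)

/-- the subgroup of the Galois group which corresponds to `p ^ n ℤ_p` -/
def sub (n : ℕ) : Subgroup (L ≃ₐ[K] L) where
  carrier := {σ | (p : ℤ_[p]) ^ n ∣ (T.iso σ).toAdd}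
  mul_mem' := by
    intro σ τ hσ hτ
    simp only [Set.mem_ofPred_eq] at hσ hτ ⊢
    rw [map_mul, toAdd_mul]
    exact dvd_add hσ hτ
  one_mem' := by
    simp only [Set.mem_ofPred_eq]
    rw [map_one, toAdd_one]
    exact dvd_zero _
  inv_mem' := by
    intro σ hσ
    simp only [Set.mem_ofPred_eq] at hσ ⊢
    rw [map_inv, toAdd_inv]
    exact (dvd_neg).mpr hσ

/-- the function field of the curve `X_n`: the fixed field of `p ^ n ℤ_p` -/
def layer (n : ℕ) : IntermediateField K L := IntermediateField.fixedField (T.sub n)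

theorem scalar_tower_layer (n : ℕ) : IsScalarTower k (T.layer n) L :=
  .of_algebraMap_eq fun _ => rfl

theorem mem_layer (n : ℕ) (a : L) : a ∈ T.layer n ↔ ∀ σ ∈ T.sub n, σ a = a := by
  unfold layer
  rw [IntermediateField.mem_fixedField_iff]

theorem mem_sub (n : ℕ) (σ : L ≃ₐ[K] L) : σ ∈ T.sub n ↔ (p : ℤ_[p]) ^ n ∣ (T.iso σ).toAdd :=
  Iff.rfl

theorem isOpen_sub (n : ℕ) : IsOpen (T.sub n : Set (L ≃ₐ[K] L)) := by
  have h1 : IsOpen {x : ℤ_[p] | (p : ℤ_[p]) ^ n ∣ x} := by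
    have h2 : {x : ℤ_[p] | (p : ℤ_[p]) ^ n ∣ x} = {x : ℤ_[p] | ‖x‖ < (p : ℝ) ^ (-(n : ℤ) + 1)} := by
      ext x
      rw [Set.mem_ofPred_eq, Set.mem_ofPred_eq, ← Ideal.mem_span_singleton,
        ← PadicInt.norm_le_pow_iff_mem_span_pow, PadicInt.norm_le_pow_iff_norm_lt_pow_add_one]
    rw [h2]
    exact isOpen_lt continuous_norm continuous_const
  have h3 : (T.sub n : Set (L ≃ₐ[K] L)) =
      (fun σ => (T.iso σ).toAdd) ⁻¹' {x : ℤ_[p] | (p : ℤ_[p]) ^ n ∣ x} := rfl
  rw [h3]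
  exact h1.preimage (continuous_toAdd.comp T.iso.continuous)

theorem mem_sub_iff (n : ℕ) (σ : L ≃ₐ[K] L) : σ ∈ T.sub n ↔ ∀ a ∈ T.layer n, σ a = a := by
  have := T.galois
  have hcl : IsClosed (T.sub n : Set (L ≃ₐ[K] L)) := Subgroup.isClosed_of_isOpen _ (T.isOpen_sub n)
  have h1 := InfiniteGalois.fixingSubgroup_fixedField (k := K) (K := L) ⟨T.sub n, hcl⟩
  have h2 : (IntermediateField.fixedField (T.sub n)).fixingSubgroup = T.sub n := h1
  conv_lhs => rw [← h2]
  rw [IntermediateField.mem_fixingSubgroup_iff]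
  rfl

theorem layer_finite (n : ℕ) : FiniteDimensional K (T.layer n) := by
  have := T.galois
  rw [← InfiniteGalois.isOpen_iff_finite]
  have h2 : (T.layer n).fixingSubgroup = T.sub n := by
    ext σ
    rw [T.mem_sub_iff, IntermediateField.mem_fixingSubgroup_iff]
  rw [h2]
  exact T.isOpen_sub n

theorem layer_mono {m n : ℕ} (h : m ≤ n) : T.layer m ≤ T.layer n := by
  intro a ha
  rw [mem_layer] at ha ⊢
  intro σ hσ
  exact ha σ ((pow_dvd_pow _ h).trans hσ)

theorem exists_layer (a : L) : ∃ n, a ∈ T.layer n := by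
  have := T.galois
  have h1 := stabilizer_isOpen_of_isIntegral (K := K) (L := L) a
  have h2 : IsOpen ((fun z : ℤ_[p] => T.iso.symm (Multiplicative.ofAdd z)) ⁻¹'
      (MulAction.stabilizer (L ≃ₐ[K] L) a : Set (L ≃ₐ[K] L))) :=
    h1.preimage (T.iso.symm.continuous.comp continuous_ofAdd)
  have h0 : (0 : ℤ_[p]) ∈ ((fun z : ℤ_[p] => T.iso.symm (Multiplicative.ofAdd z)) ⁻¹'
      (MulAction.stabilizer (L ≃ₐ[K] L) a : Set (L ≃ₐ[K] L))) := by
    rw [Set.mem_preimage, SetLike.mem_coe, ofAdd_zero, map_one]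
    exact one_mem _
  obtain ⟨ε, hε, hball⟩ := Metric.isOpen_iff.mp h2 0 h0
  obtain ⟨n, hn⟩ := PadicInt.exists_pow_neg_lt p hε
  refine ⟨n, ?_⟩
  rw [mem_layer]
  intro σ hσ
  have h3 : (T.iso σ).toAdd ∈ Metric.ball (0 : ℤ_[p]) ε := by
    rw [Metric.mem_ball, dist_zero_right]
    refine lt_of_le_of_lt ?_ hn
    rw [PadicInt.norm_le_pow_iff_mem_span_pow, Ideal.mem_span_singleton]
    exact hσ
  have h4 := hball h3
  rw [Set.mem_preimage] at h4
  have h5 : T.iso.symm (Multiplicative.ofAdd (T.iso σ).toAdd) = σ := by simp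
  rw [h5] at h4
  exact h4

theorem isCurve_layer (n : ℕ) : IsCurve k (T.layer n) := by
  have := T.layer_finite n
  have := T.scalar_tower_layer n
  refine isCurve_of_finite T.curve ?_
  intro y hy
  have h1 : IsAlgebraic k (algebraMap (T.layer n) L y) := hy.algebraMap
  obtain ⟨a, ha⟩ := T.constants _ h1
  refine ⟨a, ?_⟩
  apply (algebraMap (T.layer n) L).injective
  rw [← ha, ← IsScalarTower.algebraMap_apply]

/-- the automorphism given by a `p`-adic integer -/
noncomputable def aut (z : ℤ_[p]) : L ≃ₐ[K] L := T.iso.symm (Multiplicative.ofAdd z)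

theorem aut_add (z z' : ℤ_[p]) (a : L) : T.aut (z + z') a = T.aut z' (T.aut z a) := by
  unfold aut
  rw [add_comm, ofAdd_add, map_mul]
  rfl

theorem aut_zero (a : L) : T.aut 0 a = a := by
  unfold aut
  rw [ofAdd_zero, map_one]
  rfl

theorem aut_surj (σ : L ≃ₐ[K] L) : T.aut (T.iso σ).toAdd = σ := by
  unfold aut
  simp

theorem aut_injective {z : ℤ_[p]} (h : T.aut z = 1) : z = 0 := by
  unfold aut at h
  have h1 := congrArg T.iso h
  rw [map_one] at h1
  simp only [ContinuousMulEquiv.apply_symm_apply] at h1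
  exact h1

theorem aut_fix (n : ℕ) (z : ℤ_[p]) (a : L) (ha : a ∈ T.layer n) :
    T.aut ((p : ℤ_[p]) ^ n * z) a = a := by
  rw [mem_layer] at ha
  apply ha
  rw [mem_sub]
  unfold aut
  simp

theorem aut_layer (n : ℕ) (z : ℤ_[p]) (a : L) (ha : a ∈ T.layer n) : T.aut z a ∈ T.layer n := by
  rw [mem_layer]
  intro σ hσ
  have h1 := (T.mem_layer n a).mp ha σ hσ
  rw [← T.aut_surj σ, ← aut_add, add_comm, aut_add, T.aut_surj σ, h1]

/-- the action on valuation rings -/
noncomputable def mv (z : ℤ_[p]) (w : ValuationSubring L) : ValuationSubring L :=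
  w.comap ((T.aut z : L ≃ₐ[K] L) : L →+* L)

theorem mem_mv (z : ℤ_[p]) (w : ValuationSubring L) (a : L) : a ∈ T.mv z w ↔ T.aut z a ∈ w :=
  Iff.rfl

theorem mv_add (z z' : ℤ_[p]) (w : ValuationSubring L) : T.mv (z + z') w = T.mv z (T.mv z' w) := by
  ext a
  rw [mem_mv, mem_mv, mem_mv, aut_add]

theorem mv_zero (w : ValuationSubring L) : T.mv 0 w = w := by
  ext a
  rw [mem_mv, aut_zero]

theorem mv_comap (z : ℤ_[p]) (w : ValuationSubring L) :
    (T.mv z w).comap (algebraMap K L) = w.comap (algebraMap K L) := by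
  ext a
  rw [ValuationSubring.mem_comap, ValuationSubring.mem_comap, mem_mv, AlgEquiv.commutes]

theorem mv_comap_layer (n : ℕ) (z z' : ℤ_[p]) (w : ValuationSubring L)
    (h : (p : ℤ_[p]) ^ n ∣ z - z') :
    (T.mv z w).comap (algebraMap (T.layer n) L) = (T.mv z' w).comap (algebraMap (T.layer n) L) := by
  obtain ⟨y, hy⟩ := h
  ext a
  rw [ValuationSubring.mem_comap, ValuationSubring.mem_comap, mem_mv, mem_mv]
  have h1 : z = (p : ℤ_[p]) ^ n * y + z' := by rw [← hy]; ring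
  have h2 : T.aut ((p : ℤ_[p]) ^ n * y) (algebraMap (T.layer n) L a) =
      algebraMap (T.layer n) L a := T.aut_fix n y _ a.2
  rw [h1, aut_add, h2]

end ZpTower

end Pool.Agent.H639R3
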